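import Pool.Agent.Q225.Rig

/-!
# Polynomially many placements decide generic rigidity for graphs of bounded cutwidth

For all `d` and `w` there is an exponent `s` such that for every `n` an explicit set of at most
`(nd + 1) ^ (3 s)` integer placements of `n` vertices in `ℝ^d` contains, for every graph of cutwidth
at most `w` on these vertices, a placement at which the rigidity matrix has its generic rank. So
generic rigidity in `ℝ³` of graphs of bounded cutwidth (equivalently, of bounded degree and bounded
pathwidth) is decided by the ranks at polynomially many explicit placements of polynomial bit length;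
the placements do not depend on the graph, and no linear arrangement of the graph is needed. For the
graphs of bounded carving width (equivalently, of bounded degree and bounded treewidth) the same
holds with `n ^ O(log n)` placements.

The points are those of the Shpilka–Volkovich generator. Proof: the symbolic rigidity matrix is the
sum over the vertices `v` and the coordinates of matrices with one variable, supported in the rows of
the edges at `v` and in the columns of `v` and its neighbours; so the cuts of this sum have small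
dimension if the cuts of the graph have few edges. The theorems on matrices of small linear width and
small tree width are in the starting library (`Pool.Agent.W943.Pm.path_rank`, `tree_rank`).
-/

set_option autoImplicit false

namespace Pool.Agent.Results.MP_37c7bf_co.BoundedCutwidth

open Pool.Agent.Q225.Rig Pool.Agent.H283R2.DR Pool.Agent.H789R5
open Pool.Agent.W943.Cut (points point)

variable {n d : ℕ}

/-- The explicit placements: the points with the coordinates
`∑_l y_l ∏_{k ≠ i} (z_l - k)`, `0 ≤ i, k < nd`, for the seeds `y ∈ {0, …, nd}^s` and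
`z ∈ {0, …, (nd)²}^s`, cut into `n` vectors of length `d`. -/
def placements (d n s : ℕ) : Finset (Fin n → Fin d → ℤ) :=
  (points (n * d) s (n * d)).image fun x v i => x (finProdFinEquiv (v, i))

/-- The ranks of the rigidity matrix of `G` at the placements in `P` determine the generic rank of
`G` (their maximum) and decide whether `G` is generically rigid in `ℝ^d`. -/
def Decides (P : Finset (Fin n → Fin d → ℤ)) (G : SimpleGraph (Fin n)) : Prop :=
  (∀ q ∈ P, (rigidityMatrix G (fun v i => (q v i : ℝ))).rank ≤ genRank d G) ∧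
  (∃ q ∈ P, (rigidityMatrix G (fun v i => (q v i : ℝ))).rank = genRank d G) ∧
  (d ≤ n → (GenRigid d G ↔ ∃ q ∈ P,
    d * n ≤ (rigidityMatrix G (fun v i => (q v i : ℝ))).rank + d * (d + 1) / 2))

theorem rank_le_genRank (G : SimpleGraph (Fin n)) (p : Fin n → Fin d → ℝ) :
    (rigidityMatrix G p).rank ≤ genRank d G := by
  unfold genRank
  refine le_csSup ⟨n * d, ?_⟩ ⟨p, rfl⟩
  rintro _ ⟨p', rfl⟩
  refine (Matrix.rank_le_card_width _).trans ?_
  rw [Fintype.card_prod, Fintype.card_fin, Fintype.card_fin]

theorem decides {s : ℕ} {G : SimpleGraph (Fin n)}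
    (h : ∀ p : Fin n → Fin d → ℝ, ∃ x ∈ points (n * d) s (n * d), (rigidityMatrix G p).rank ≤
      (rigidityMatrix G (fun v i => (x (finProdFinEquiv (v, i)) : ℝ))).rank) :
    Decides (placements d n s) G := by
  obtain ⟨p, hp⟩ := exists_mg (Fin n) d
  have hgr := genRank_add hp G
  have hrp := rank_add_mo G p
  rw [Fintype.card_fin] at hgr hrp
  obtain ⟨x, hx, hqr⟩ := h p
  have hq : (fun v i => x (finProdFinEquiv (v, i))) ∈ placements d n s :=
    Finset.mem_image_of_mem _ hx
  have hqe : (rigidityMatrix G (fun v i => (x (finProdFinEquiv (v, i)) : ℝ))).rank =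
      genRank d G := by
    have := rank_le_genRank G (fun v i => (x (finProdFinEquiv (v, i)) : ℝ))
    omega
  refine ⟨fun q _ => rank_le_genRank G _, ⟨_, hq, hqe⟩, fun hdn => ?_⟩
  rw [genRigid_iff hp (by rw [Fintype.card_fin]; exact hdn)]
  constructor
  · intro h
    exact ⟨_, hq, by omega⟩
  · rintro ⟨q', -, hq'⟩
    have := rank_le_genRank G (fun v i => (q' v i : ℝ))
    omega

theorem card_le (d n s : ℕ) : (placements d n s).card ≤ (n * d + 1) ^ (3 * s) := by
  refine Finset.card_image_le.trans ?_
  unfold points
  refine Finset.card_image_le.trans ?_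
  rw [Finset.card_product, Fintype.card_piFinset, Fintype.card_piFinset]
  simp only [Finset.card_range, Finset.prod_const, Finset.card_univ, Fintype.card_fin]
  rw [← mul_pow, pow_mul]
  refine Nat.pow_le_pow_left ?_ s
  nlinarith [Nat.zero_le (n * d), Nat.zero_le ((n * d) ^ 2)]

theorem coord_le {s : ℕ} {q : Fin n → Fin d → ℤ} (hq : q ∈ placements d n s) (v : Fin n)
    (i : Fin d) : |q v i| ≤ ((s * (n * d) ^ (2 * (n * d) + 1) : ℕ) : ℤ) := by
  unfold placements at hq
  rw [Finset.mem_image] at hq
  obtain ⟨x, hx, rfl⟩ := hq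
  unfold points at hx
  rw [Finset.mem_image] at hx
  obtain ⟨⟨y, z⟩, hyz, rfl⟩ := hx
  rw [Finset.mem_product, Fintype.mem_piFinset, Fintype.mem_piFinset] at hyz
  obtain ⟨hy, hz⟩ := hyz
  simp only [Finset.mem_range] at hy hz
  have hn1 : 1 ≤ n * d := by
    have h1 : 0 < n := lt_of_le_of_lt (Nat.zero_le _) v.isLt
    have h2 : 0 < d := lt_of_le_of_lt (Nat.zero_le _) i.isLt
    exact Nat.mul_pos h1 h2
  set m := n * d with hm
  set k := finProdFinEquiv (v, i) with hk
  unfold point
  refine (Finset.abs_sum_le_sum_abs _ _).trans ?_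
  have h1 : ∀ l : Fin s, |(y l : ℤ) * ∏ k' ∈ Finset.univ.erase k, ((z l : ℤ) - (k'.val : ℤ))| ≤
      ((m ^ (2 * m + 1) : ℕ) : ℤ) := by
    intro l
    rw [abs_mul, Finset.abs_prod]
    have h2 : |(y l : ℤ)| ≤ (m : ℤ) := by
      rw [abs_of_nonneg (Int.natCast_nonneg _)]
      have := hy l
      omega
    have h3 : ∏ k' ∈ Finset.univ.erase k, |(z l : ℤ) - (k'.val : ℤ)| ≤ ((m : ℤ) ^ 2) ^ m := by
      calc ∏ k' ∈ Finset.univ.erase k, |(z l : ℤ) - (k'.val : ℤ)|
          ≤ ∏ _k' ∈ Finset.univ.erase k, (m : ℤ) ^ 2 := by
            refine Finset.prod_le_prod (fun _ _ => abs_nonneg _) fun k' _ => ?_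
            have h4 := hz l
            have h5 := k'.isLt
            have h6 : (k'.val : ℤ) < m := by exact_mod_cast h5
            have h7 : (z l : ℤ) < m * m + 1 := by exact_mod_cast h4
            have h8 : (m : ℤ) ≤ m * m := by
              have : (1 : ℤ) ≤ m := by exact_mod_cast hn1
              nlinarith
            rw [abs_le, pow_two]
            constructor
            · have : (0 : ℤ) ≤ z l := Int.natCast_nonneg _
              omega
            · have : (0 : ℤ) ≤ k'.val := Int.natCast_nonneg _
              omega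
        _ = ((m : ℤ) ^ 2) ^ (Finset.univ.erase k).card := by rw [Finset.prod_const]
        _ ≤ ((m : ℤ) ^ 2) ^ m := by
            refine pow_le_pow_right₀ ?_ ?_
            · have : (1 : ℤ) ≤ m := by exact_mod_cast hn1
              exact one_le_pow₀ this
            · refine (Finset.card_le_univ _).trans ?_
              rw [Fintype.card_fin]
    calc |(y l : ℤ)| * ∏ k' ∈ Finset.univ.erase k, |(z l : ℤ) - (k'.val : ℤ)|
        ≤ (m : ℤ) * ((m : ℤ) ^ 2) ^ m :=
          mul_le_mul h2 h3 (Finset.prod_nonneg fun _ _ => abs_nonneg _) (Int.natCast_nonneg _)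
      _ = ((m ^ (2 * m + 1) : ℕ) : ℤ) := by
          push_cast
          rw [← pow_mul, pow_succ]
          ring
  refine (Finset.sum_le_sum fun l _ => h1 l).trans ?_
  rw [Finset.sum_const, Finset.card_univ, Fintype.card_fin, nsmul_eq_mul]
  push_cast
  exact le_rfl

/-- The exponent for the graphs of carving width at most `w`. -/
def treeSeeds (d w n : ℕ) : ℕ :=
  2 * d + ((2 * w * d + w).centralBinom - 1) * (2 * Nat.clog 2 n)

/-- (1) For all `d` and `w` there is an exponent `s` such that for all `n` the explicit set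
`placements d n s` of at most `(nd + 1) ^ (3 s)` integer placements of `n` vertices in `ℝ^d`, with
coordinates of absolute value at most `s (nd) ^ (2nd + 1)`, decides the generic rank and the generic
rigidity in `ℝ^d` of each graph of cutwidth at most `w` on the `n` vertices.

(2) For the graphs of carving width at most `w` the same holds with the exponent
`s = 2 d + 2 (C(2u, u) - 1) ⌈log₂ n⌉`, where `u = 2wd + w`, that is with `n ^ O(log n)`
placements. -/
theorem result :
    (∀ d w : ℕ, ∃ s : ℕ, ∀ n : ℕ, (placements d n s).card ≤ (n * d + 1) ^ (3 * s) ∧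
      (∀ q ∈ placements d n s, ∀ v i, |q v i| ≤ ((s * (n * d) ^ (2 * (n * d) + 1) : ℕ) : ℤ)) ∧
      ∀ G : SimpleGraph (Fin n), CutwidthLE w G → Decides (placements d n s) G) ∧
    (∀ d w n : ℕ,
      (placements d n (treeSeeds d w n)).card ≤ (n * d + 1) ^ (3 * treeSeeds d w n) ∧
      (∀ q ∈ placements d n (treeSeeds d w n), ∀ v i,
        |q v i| ≤ ((treeSeeds d w n * (n * d) ^ (2 * (n * d) + 1) : ℕ) : ℤ)) ∧
      ∀ G : SimpleGraph (Fin n), CarvingWidthLE w G →
        Decides (placements d n (treeSeeds d w n)) G) := by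
  classical
  refine ⟨fun d w => ⟨Pool.Agent.W943.Nis.sd ℂ ((4 * w + 1) * d + 2 * w) 1, fun n =>
    ⟨card_le _ _ _, fun q hq v i => coord_le hq v i, fun G hG => decides ?_⟩⟩,
    fun d w n => ⟨card_le _ _ _, fun q hq v i => coord_le hq v i, fun G hG => decides ?_⟩⟩
  · have e : Fin (Fintype.card G.edgeSet) ≃ G.edgeSet := (Fintype.equivFin _).symm
    refine bridge e _ fun q => Pool.Agent.W943.Pm.path_rank (δ := 1) (path_hidden hG e)
      (fun i j => cmat_deg e i j) ?_ q
    rw [mul_one]
    exact min_le_right _ _
  · have e : Fin (Fintype.card G.edgeSet) ≃ G.edgeSet := (Fintype.equivFin _).symm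
    refine bridge e _ fun q => Pool.Agent.W943.Pm.tree_rank (δ := 1) (k := 2 * d)
      (d := 2 * Nat.clog 2 n) (tree_hidden hG e) (by omega) ?_ (fun i j => cmat_deg e i j) ?_ q
    · have h1 : n ≤ 2 ^ Nat.clog 2 n := Nat.le_pow_clog (by norm_num) _
      have h2 : 2 ^ (2 * Nat.clog 2 n) * n ≤ 3 ^ (2 * Nat.clog 2 n) := by
        calc 2 ^ (2 * Nat.clog 2 n) * n ≤ 2 ^ (2 * Nat.clog 2 n) * 2 ^ Nat.clog 2 n :=
              Nat.mul_le_mul_left _ h1
          _ = 8 ^ Nat.clog 2 n := by
              rw [pow_mul, ← mul_pow]
              norm_num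
          _ ≤ 9 ^ Nat.clog 2 n := Nat.pow_le_pow_left (by norm_num) _
          _ = 3 ^ (2 * Nat.clog 2 n) := by
              rw [pow_mul]
              norm_num
      calc 2 ^ (2 * Nat.clog 2 n) * (n * d) = (2 ^ (2 * Nat.clog 2 n) * n) * d := by ring
        _ ≤ 3 ^ (2 * Nat.clog 2 n) * d := Nat.mul_le_mul_right _ h2
        _ ≤ 2 * d * 3 ^ (2 * Nat.clog 2 n) := by nlinarith [Nat.zero_le (3 ^ (2 * Nat.clog 2 n) * d)]
    · rw [mul_one]
      exact min_le_right _ _

end Pool.Agent.Results.MP_37c7bf_co.BoundedCutwidth
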