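import Pool.Agent.Q327.TDK.Kernel2

/-!
# Generic rigidity: a kernel of bounded size for graphs of bounded treedepth

Let `W` be a set of vertices of a graph `G`, let `S` be a subset of `W`, and consider pieces of `W`
attached along `S`: sets of vertices of `W - S` without neighbours in `W` outside of themselves and
of `S`. If `d |S| + 1` pairwise disjoint pieces are attached along `S` in the same way, then one of
them can be removed: the generic rank in `ℝ^d` changes by a number which depends only on the piece,
namely by the rank which the piece adds to the complete graph on `S`.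

These removals reduce the computation of the generic rank, and the decision of generic rigidity in
`ℝ^d`, to a graph of bounded size, for all graphs which consist of a bounded number of vertices and
a part of bounded treedepth.
-/

set_option autoImplicit false
set_option linter.unusedSectionVars false

namespace Pool.Agent.Results.MP_37c7bf_co.BoundedTreedepth

open Finset Pool.Agent.H283R2.DR Pool.Agent.H789R5 Pool.Agent.Q327.TDK

open Classical in
/-- the rule -/
theorem rule (d : ℕ) {V : Type} [Fintype V] (G : SimpleGraph V) (W S C : Finset V)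
    (D : Fin (d * S.card) → Finset V) (hS : S ⊆ W) (hC : Piece G W S C)
    (hD : ∀ i, Piece G W S (D i) ∧ Disjoint C (D i) ∧ Same G S C (D i))
    (hDD : ∀ i j, i ≠ j → Disjoint (D i) (D j)) :
    rk d G W + rk d ⊤ S = rk d G (W \ C) + rk d (fill G S) (S ∪ C) :=
  (step_rk ⟨hS, le_rfl, le_rfl, hC, D, hD, hDD⟩).2.2

open Classical in
/-- **Main theorem.**
1. The rule: if `d |S|` further pieces, disjoint from the piece `C` and from each other, are
   attached along `S` in the same way as `C`, then removing `C` lowers the generic rank in `ℝ^d` by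
   the rank which `C` adds to the complete graph on `S`.
2. If `W'` arises from `W` by such removals and `c` is the sum of their gains, then
   `rank G[W] = rank G[W'] + c`, and if `W'` has at least `d` vertices then `G[W]` is generically
   rigid if and only if `G[W']` is and `c = d |W - W'|`.
3. For all `d`, `k`, `t` there is `N` such that for every graph `G` with at least `d` vertices and
   every set `S` of at most `k` vertices such that `G - S` has treedepth at most `t`, there is a set
   `W'` of at most `N` vertices which contains `S`, has at least `d` vertices and arises from the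
   set of all vertices by removals of pieces with at most `N` vertices attached along sets of at
   most `k + d + t` vertices; hence `genRank d G = rank G[W'] + c`, and `G` is generically rigid in
   `ℝ^d` if and only if `G[W']` is and `c + d |W'| = d |V|`. -/
theorem result :
    (∀ (d : ℕ) (V : Type) [Fintype V] (G : SimpleGraph V) (W S C : Finset V)
      (D : Fin (d * S.card) → Finset V), S ⊆ W → Piece G W S C →
      (∀ i, Piece G W S (D i) ∧ Disjoint C (D i) ∧ Same G S C (D i)) →
      (∀ i j, i ≠ j → Disjoint (D i) (D j)) →
      rk d G W + rk d ⊤ S = rk d G (W \ C) + rk d (fill G S) (S ∪ C)) ∧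
    (∀ (d s N : ℕ) (V : Type) [Fintype V] (G : SimpleGraph V) (W W' : Finset V) (c : ℕ),
      Reduces d s N G W W' c →
      rk d G W = rk d G W' + c ∧
      (d ≤ W'.card → (GenRigid d (G.induce (W : Set V)) ↔
        GenRigid d (G.induce (W' : Set V)) ∧ c + d * W'.card = d * W.card))) ∧
    ∀ d k t : ℕ, ∃ N : ℕ, ∀ (V : Type) [Fintype V] (G : SimpleGraph V) (S : Finset V),
      d ≤ Fintype.card V → S.card ≤ k → TreedepthLE t G ((S : Set V)ᶜ) →
      ∃ (W' : Finset V) (c : ℕ), S ⊆ W' ∧ d ≤ W'.card ∧ W'.card ≤ N ∧
        Reduces d (k + d + t) N G univ W' c ∧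
        genRank d G = rk d G W' + c ∧
        (GenRigid d G ↔ GenRigid d (G.induce (W' : Set V)) ∧
          c + d * W'.card = d * Fintype.card V) := by
  refine ⟨fun d V _ G W S C D hS hC hD hDD => rule d G W S C D hS hC hD hDD,
    fun d s N V _ G W W' c h => ⟨h.rank.1, fun hd => h.rigid hd⟩, ?_⟩
  intro d k t
  obtain ⟨N, hN⟩ := kernel d t (k + d)
  refine ⟨N + (k + d), ?_⟩
  intro V _ G S hdV hSk hTD
  -- a set of at least d vertices
  obtain ⟨T, hTc⟩ : ∃ T : Finset V, T.card = d := by
    obtain ⟨T, _, hT⟩ := exists_subset_card_eq (s := (univ : Finset V)) (n := d)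
      (by rw [card_univ]; exact hdV)
    exact ⟨T, hT⟩
  have hS2 : (S ∪ T).card ≤ k + d := (card_union_le _ _).trans (by omega)
  have hTD' : TreedepthLE t G (((univ \ (S ∪ T) : Finset V)) : Set V) := by
    obtain ⟨le, h1, h2, h3, h4, h5, h6⟩ := hTD
    have hsub : (((univ \ (S ∪ T) : Finset V)) : Set V) ⊆ ((S : Set V)ᶜ) := by
      intro x hx hxS
      have h7 := (mem_sdiff.1 (mem_coe.1 hx)).2
      exact h7 (mem_union_left _ (mem_coe.1 hxS))
    refine ⟨le, fun v hv => h1 v (hsub hv), fun u hu v hv => h2 u (hsub hu) v (hsub hv),
      fun u hu v hv w hw => h3 u (hsub hu) v (hsub hv) w (hsub hw),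
      fun u hu v hv w hw => h4 u (hsub hu) v (hsub hv) w (hsub hw), fun v hv => ?_,
      fun u hu v hv => h6 u (hsub hu) v (hsub hv)⟩
    refine le_trans (Set.ncard_le_ncard ?_ (Set.toFinite _)) (h5 v (hsub hv))
    rintro u ⟨hu, huv⟩
    exact ⟨hsub hu, huv⟩
  have hpiece : Piece G univ (S ∪ T) (univ \ (S ∪ T)) :=
    ⟨subset_univ _, sdiff_disjoint, fun x _ y _ _ => by
      by_cases hy : y ∈ S ∪ T
      · exact Or.inr hy
      · exact Or.inl (mem_sdiff.2 ⟨mem_univ _, hy⟩)⟩
  obtain ⟨B', hB', hB'c, c, hc⟩ := hN V G univ (S ∪ T) (univ \ (S ∪ T)) (subset_univ _) hS2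
    hpiece (td_of_treedepth hTD')
  have hset : (univ : Finset V) \ ((univ \ (S ∪ T)) \ B') = (S ∪ T) ∪ B' := by
    ext x
    simp only [mem_sdiff, mem_univ, true_and, mem_union]
    tauto
  rw [hset] at hc
  have hdW : d ≤ ((S ∪ T) ∪ B').card := by
    rw [← hTc]
    exact card_le_card (subset_union_right.trans subset_union_left)
  have hc' := hc.mono (le_refl _) (Nat.le_add_right N (k + d))
  have hrk := hc.rank.1
  rw [rk_univ] at hrk
  refine ⟨(S ∪ T) ∪ B', c, subset_union_left.trans subset_union_left, hdW, ?_, hc', hrk, ?_⟩
  · exact (card_union_le _ _).trans (by omega)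
  · have h1 := rigid_iff_rk d G hdW
    rw [h1.2]
    obtain ⟨p, hp⟩ := exists_mg V d
    have h2 := genRank_add hp G
    have h3 : d * (d + 1) / 2 ≤ mo G p := by
      have h4 : Module.finrank ℝ (LinearMap.range (TA.triv p)) = d * (d + 1) / 2 := by
        rw [LinearMap.finrank_range_of_inj (triv_inj hp hdV), finrank_triv]
      rw [← h4]
      exact Submodule.finrank_mono (TA.range_triv_le _ p)
    have h5 := hc.rank.2
    rw [card_univ] at h5
    rw [genRigid_iff hp hdV]
    omega

end Pool.Agent.Results.MP_37c7bf_co.BoundedTreedepth
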