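import Pool.Agent.Q140.Rig.Dense

/-!
# Generic rigidity in three dimensions of graphs with linear minimum degree

For each `δ > 0` we reduce the computation of the generic rank in `ℝ³`, and the decision of generic
rigidity, of the graphs with `n` vertices and minimum degree at least `δ n` to graphs with at most
`44 / δ² + 6 / δ` vertices. The reduction uses vertex sets which are built by three combinatorial
rules.
-/

set_option autoImplicit false

namespace Pool.Agent.Results.MP_37c7bf_co.LinearMinimumDegree

open Finset Pool.Agent.H283R2.DR Pool.Agent.H789R5 Pool.Agent.Q140.Rig Pool.Agent.TH912.Rig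

open Classical in
/-- (1) Certified sets induce generically rigid graphs in `ℝ³`.

(2) Let `F` be a nonempty family of vertex sets of a finite graph `G` which cover the vertices and
induce generically rigid graphs in `ℝ³`. Let `W` be a set of vertices which contains all special
vertices (those which are in two members of `F` or in an edge which is in no member of `F`) and at
least three vertices of each member of `F`. Let `H` be the graph obtained from `G` by completing the
members of `F`. Then the generic rank of `G` in `ℝ³` is the generic rank of the subgraph of `H`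
induced on `W` plus three times the number of the vertices outside `W`, and `G` is generically rigid
if and only if this subgraph is.

(3) For each `δ > 0` there are `n₀` and `M` such that for each graph `G` with `n ≥ n₀` vertices and
minimum degree at least `δ n` the family `F` of the maximal certified sets with at least `M` vertices
has the following properties: it covers the vertices; it has at most `2 / δ` members, each with at
least `3 δ n / 4` vertices; any two members `C`, `D` have at most two common vertices, and there are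
at most nine edges between `C \ D` and `D \ C`; and there is a set `W` as in (2) with at most
`44 / δ² + 6 / δ` vertices. So for all such `W` the generic rank and the generic rigidity of `G` are
given by a graph on `W`. -/
theorem result :
    (∀ (V : Type) [Fintype V] (G : SimpleGraph V) (C : Finset V), Cert G C →
      GenRigid 3 (G.induce (C : Set V))) ∧
    (∀ (V : Type) [Fintype V] (G : SimpleGraph V) (F : Finset (Finset V)),
      (∀ C ∈ F, GenRigid 3 (G.induce (C : Set V))) → F.Nonempty → (∀ v, ∃ C ∈ F, v ∈ C) →
      ∀ W : Finset V, (∀ v, Special G F v → v ∈ W) → (∀ C ∈ F, 3 ≤ (C ∩ W).card) →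
        genRank 3 G = genRank 3 ((fillG G F).induce (W : Set V)) + 3 * (Wᶜ).card ∧
        (GenRigid 3 G ↔ GenRigid 3 ((fillG G F).induce (W : Set V)))) ∧
    ∀ δ : ℝ, 0 < δ → ∃ n₀ M : ℕ, ∀ (V : Type) [Fintype V] (G : SimpleGraph V)
      [DecidableRel G.Adj], n₀ ≤ Fintype.card V →
      (∀ v, δ * (Fintype.card V : ℝ) ≤ G.degree v) →
      ∀ F : Finset (Finset V), (∀ C, C ∈ F ↔ MaxCert G C ∧ M ≤ C.card) →
        (∀ v, ∃ C ∈ F, v ∈ C) ∧ (F.card : ℝ) ≤ 2 / δ ∧
        (∀ C ∈ F, 3 / 4 * δ * (Fintype.card V : ℝ) ≤ C.card) ∧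
        (∀ C ∈ F, ∀ D ∈ F, C ≠ D → (C ∩ D).card ≤ 2 ∧ (bars G (C \ D) (D \ C)).card ≤ 9) ∧
        (∃ W : Finset V, (W.card : ℝ) ≤ 44 / δ ^ 2 + 6 / δ ∧ (∀ v, Special G F v → v ∈ W) ∧
          ∀ C ∈ F, 3 ≤ (C ∩ W).card) ∧
        ∀ W : Finset V, (∀ v, Special G F v → v ∈ W) → (∀ C ∈ F, 3 ≤ (C ∩ W).card) →
          genRank 3 G = genRank 3 ((fillG G F).induce (W : Set V)) + 3 * (Wᶜ).card ∧
          (GenRigid 3 G ↔ GenRigid 3 ((fillG G F).induce (W : Set V))) := by
  refine ⟨?_, ?_, ?_⟩
  · intro V _ G C hC
    obtain ⟨p, hp⟩ := exists_mg V 3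
    rw [hp.toGen.genRigid_induce_iff]
    exact hC.rigid hp.toGen
  · intro V _ G F hF hne hcov W hW h3
    exact cover_red (fun p hp C hC => (hp.genRigid_induce_iff G _).1 (hF C hC)) hne hcov hW h3
  · intro δ hδ0
    obtain ⟨n₀, M, h⟩ := dense_cover δ hδ0
    refine ⟨n₀, M, ?_⟩
    intro V _ G _ hn hδ F hF
    obtain ⟨hne, hk, hcov, hsize, hpair⟩ := h V G hn hδ F hF
    refine ⟨hcov, hk, fun C hC => (hsize C hC).2, hpair, ?_, ?_⟩
    · obtain ⟨W, hW1, hW2, hW3⟩ := exists_W hcov hpair (fun C hC => (hsize C hC).1)
      refine ⟨W, ?_, hW1, hW2⟩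
      have h1 : (W.card : ℝ) ≤ 11 * (F.card : ℝ) ^ 2 + 3 * F.card := by exact_mod_cast hW3
      have h2 : (0 : ℝ) ≤ F.card := Nat.cast_nonneg _
      have h3 : (F.card : ℝ) ^ 2 ≤ (2 / δ) ^ 2 := pow_le_pow_left₀ h2 hk 2
      have h4 : (2 / δ) ^ 2 = 4 / δ ^ 2 := by rw [div_pow]; norm_num
      have h5 : 44 / δ ^ 2 = 11 * (4 / δ ^ 2) := by ring
      have h6 : 6 / δ = 3 * (2 / δ) := by ring
      rw [h5, h6]
      rw [h4] at h3
      linarith
    · intro W hW1 hW2
      exact cover_red (fun p hp C hC => ((hF C).1 hC).1.1.rigid hp) hne hcov hW1 hW2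

end Pool.Agent.Results.MP_37c7bf_co.LinearMinimumDegree
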