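import Pool.Agent.Q140.Rig.Sharp

/-!
# A linear kernel for generic rigidity in three dimensions, for partitions into modules

A module of a graph is a set of vertices such that each vertex outside is adjacent to all or to none
of its vertices. For a partition of the vertex set into `k` modules (for example the maximal strong
modules, or the classes of twins) we reduce the computation of the generic rank in `ℝ³`, and the
decision of generic rigidity, to an induced subgraph with at most `6 k` vertices, at most six in
each module. Moreover all blow-ups of connected graphs with at least five vertices per vertex are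
generically rigid.
-/

set_option autoImplicit false

namespace Pool.Agent.Results.MP_37c7bf_co.ModularKernel

open Finset Pool.Agent.H283R2.DR Pool.Agent.H789R5 Pool.Agent.TH349.Rig Pool.Agent.Q140.Rig

open Classical in
/-- one vertex of a large module -/
theorem one_vertex {V : Type} [Fintype V] (G : SimpleGraph V) (M N : Finset V)
    (hM : ∀ w, w ∉ M → ∀ u ∈ M, ∀ v ∈ M, G.Adj w u → G.Adj w v) (h7 : 7 ≤ M.card)
    (hN : ∀ w ∈ N, w ∉ M ∧ ∃ u ∈ M, G.Adj w u) (h4 : 4 ≤ N.card) (v : V) (hv : v ∈ M) :
    genRank 3 G = genRank 3 (G.induce ((univ.erase v : Finset V) : Set V)) + 3 ∧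
      (GenRigid 3 G ↔ GenRigid 3 (G.induce ((univ.erase v : Finset V) : Set V))) := by
  let π : V → Option V := fun u => if u ∈ M then none else some u
  have hπ : ∀ u, π u = none ↔ u ∈ M := by
    intro u
    by_cases h : u ∈ M <;> simp [π, h]
  have hπ' : ∀ u w, π u = some w → u = w := by
    intro u w h
    by_cases hu : u ∈ M
    · simp [π, hu] at h
    · simpa [π, hu] using h
  have hmod : Modules G π := by
    intro a b w hab hw hadj
    by_cases ha : a ∈ M
    · have hb : b ∈ M := (hπ b).1 (hab ▸ (hπ a).2 ha)
      have hwM : w ∉ M := fun h => hw (((hπ w).2 h).trans ((hπ a).2 ha).symm)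
      exact hM w hwM a ha b hb hadj
    · have h1 : π a = some a := by simp [π, ha]
      have h2 := hπ' b a (hab ▸ h1)
      rw [h2]
      exact hadj
  have hok : ∀ i, Ok G π (univ.erase v) i := by
    intro i
    rcases i with _ | w
    · right
      have h1 : cls π none = M := by
        ext u
        rw [mem_cls, hπ]
      refine ⟨?_, Or.inl ?_⟩
      · rw [h1]
        have h2 : M ∩ univ.erase v = M.erase v := by
          ext u
          simp [and_comm]
        rw [h2, card_erase_of_mem hv]
        omega
      · refine h4.trans (card_le_card ?_)
        intro w hw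
        obtain ⟨h2, u, hu, ha⟩ := hN w hw
        rw [mem_outN]
        exact ⟨fun h => h2 ((hπ w).1 h), u, (hπ u).2 hu, ha⟩
    · left
      intro u hu
      rw [mem_cls] at hu
      rw [mem_erase]
      refine ⟨?_, mem_univ _⟩
      rintro rfl
      rw [(hπ u).2 hv] at hu
      exact absurd hu (by simp)
  have hc : ((univ.erase v : Finset V)ᶜ).card = 1 := by
    rw [card_compl, card_erase_of_mem (mem_univ _), card_univ]
    have : 1 ≤ Fintype.card V := Fintype.card_pos_iff.2 ⟨v⟩
    omega
  refine ⟨?_, rigid_red hmod hok⟩
  have := genRank_red hmod hok
  rw [hc] at this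
  exact this

open Classical in
/-- Let `G` be a finite graph.

(1) Let `M` be a module of `G` with at least seven vertices and at least four vertices outside `M`
which are adjacent to vertices of `M`. For each vertex `v` of `M` the generic rank of `G` in `ℝ³` is
the generic rank of `G - v` plus `3`, and `G` is generically rigid if and only if `G - v` is.

(2) Let `π` be a partition of the vertices of `G` into modules. Let `W` be a set of vertices such
that for each class either `W` contains the class; or `W` contains at least six of its vertices, and
the class has at least four outside neighbours; or `W` contains at least six of its vertices, the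
class has three outside neighbours and `W` contains three edges of the class or the ends of all
edges of the class. Then the generic rank of `G` in `ℝ³` is the generic rank of the subgraph induced
on `W` plus three times the number of the vertices outside `W`, and `G` is generically rigid in `ℝ³`
if and only if the subgraph induced on `W` is.

(3) If each class with more than six vertices has at least three outside neighbours, then there is
such a set `W` with at most six vertices in each class, so with at most six times as many vertices
as classes.

(4) If `G` has at least four vertices and some class has at most two outside neighbours and does not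
form the whole graph together with them, then `G` is not generically rigid in `ℝ³`.

(5) If `G` is connected, there are at least two classes and each class has at least five
vertices then `G` is generically rigid in `ℝ³`.

(6) The numbers are best possible: the generic ranks of `K_{4,6}` and `K_{4,5}` are `24` and `20`,
and `K_{4,4}` is not generically rigid. -/
theorem result :
    (∀ (V : Type) [Fintype V] (G : SimpleGraph V) (M N : Finset V),
      (∀ w, w ∉ M → ∀ u ∈ M, ∀ v ∈ M, G.Adj w u → G.Adj w v) → 7 ≤ M.card →
      (∀ w ∈ N, w ∉ M ∧ ∃ u ∈ M, G.Adj w u) → 4 ≤ N.card → ∀ v ∈ M,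
        genRank 3 G = genRank 3 (G.induce ((univ.erase v : Finset V) : Set V)) + 3 ∧
        (GenRigid 3 G ↔ GenRigid 3 (G.induce ((univ.erase v : Finset V) : Set V)))) ∧
    (∀ (V κ : Type) [Fintype V] [Fintype κ] (G : SimpleGraph V) (π : V → κ), Modules G π →
      (∀ W : Finset V, (∀ i, Ok G π W i) →
        genRank 3 G = genRank 3 (G.induce (W : Set V)) + 3 * (Wᶜ).card ∧
        (GenRigid 3 G ↔ GenRigid 3 (G.induce (W : Set V)))) ∧
      ((∀ i, 6 < (cls π i).card → 3 ≤ (outN G π i).card) →
        ∃ W : Finset V, (∀ i, (cls π i ∩ W).card ≤ 6) ∧ W.card ≤ 6 * Fintype.card κ ∧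
          ∀ i, Ok G π W i) ∧
      (4 ≤ Fintype.card V → ∀ v w, π w ≠ π v → w ∉ outN G π (π v) →
        (outN G π (π v)).card ≤ 2 → ¬ GenRigid 3 G) ∧
      ((∀ v, 5 ≤ (cls π (π v)).card) → G.Connected → (∃ u v, π u ≠ π v) → GenRigid 3 G)) ∧
    genRank 3 (completeBipartiteGraph (Fin 4) (Fin 6)) = 24 ∧
    genRank 3 (completeBipartiteGraph (Fin 4) (Fin 5)) = 20 ∧
    ¬ GenRigid 3 (completeBipartiteGraph (Fin 4) (Fin 4)) :=
  ⟨fun _ _ G M N hM h7 hN h4 v hv => one_vertex G M N hM h7 hN h4 v hv,
    fun _ _ _ _ G π hπ => ⟨fun _ hW => ⟨genRank_red hπ hW, rigid_red hπ hW⟩,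
      fun h => exists_kernel G π h,
      fun h4 _ _ hw hw' h2 => not_rigid h4 hw hw' h2,
      fun h5 hc h2 => blowup hπ h5 hc h2⟩,
    k46, k45, k44⟩

end Pool.Agent.Results.MP_37c7bf_co.ModularKernel
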